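import Pool.Agent.H3.DppA

set_option autoImplicit false
open Matrix Pool.Agent.H3.Dpp

namespace Pool.Agent.Results.MP_dbbe21_pr.Counter

/-- Marginal kernel: real symmetric with `0 ⪯ K ⪯ 1`. -/
def IsMarginal {N : ℕ} (K : Matrix (Fin N) (Fin N) ℝ) : Prop :=
  K.PosSemidef ∧ (1 - K).PosSemidef

/-- The principal minor `det K_S = Pr[S ⊆ X]`. -/
noncomputable def minor {N : ℕ} (K : Matrix (Fin N) (Fin N) ℝ) (S : Finset (Fin N)) : ℝ :=
  (K.submatrix (fun i : S => (i : Fin N)) (fun i : S => (i : Fin N))).det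

/-- `Pr[X = S]`, by inclusion-exclusion from `Pr[T ⊆ X] = det K_T`. -/
noncomputable def prob {N : ℕ} (K : Matrix (Fin N) (Fin N) ℝ) (S : Finset (Fin N)) : ℝ :=
  ∑ T ∈ Finset.univ.filter (fun T => S ⊆ T), (-1) ^ (T \ S).card * minor K T

noncomputable def lik {N m : ℕ} (X : Fin m → Finset (Fin N)) (K : Matrix (Fin N) (Fin N) ℝ) : ℝ :=
  ∏ t, prob K (X t)

def Optimal {N m : ℕ} (X : Fin m → Finset (Fin N)) (K : Matrix (Fin N) (Fin N) ℝ) : Prop :=
  IsMarginal K ∧ ∀ K', IsMarginal K' → lik X K' ≤ lik X K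

def train : Fin 6 → Finset (Fin 4) := ![{3}, {3}, {3}, {0, 1, 3}, {0, 2, 3}, {1, 2, 3}]

lemma closed_psd {N : ℕ} : IsClosed {K : Matrix (Fin N) (Fin N) ℝ | K.PosSemidef} := by
  have : {K : Matrix (Fin N) (Fin N) ℝ | K.PosSemidef} =
      {K | Kᴴ = K} ∩ ⋂ x : Fin N → ℝ, {K | 0 ≤ star x ⬝ᵥ (K *ᵥ x)} := by
    ext K; simp [posSemidef_iff_dotProduct_mulVec, IsHermitian]
  rw [this]
  refine (isClosed_eq (by fun_prop) continuous_id).inter (isClosed_iInter fun x => ?_)
  exact isClosed_le continuous_const (by fun_prop)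

lemma exists_opt {N m : ℕ} (X : Fin m → Finset (Fin N)) : ∃ K, Optimal X K := by
  have hc : IsCompact {K : Matrix (Fin N) (Fin N) ℝ | IsMarginal K} := by
    have h1 : IsCompact (Set.pi Set.univ (fun _ : Fin N => Set.pi Set.univ
        (fun _ : Fin N => Set.Icc (-1 : ℝ) 1))) :=
      isCompact_univ_pi (fun _ => isCompact_univ_pi (fun _ => isCompact_Icc))
    refine IsCompact.of_isClosed_subset (X := Matrix (Fin N) (Fin N) ℝ) h1
      (closed_psd.inter (closed_psd.preimage (f := fun K => 1 - K) (by fun_prop))) ?_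
    rintro K ⟨h0, h1⟩ i - j -
    have a1 := minor2_nonneg h0 i j
    have a2 : 0 ≤ K i i := h0.diag_nonneg
    have a3 : 0 ≤ K j j := h0.diag_nonneg
    have a4 : 0 ≤ (1 - K) i i := h1.diag_nonneg
    have a5 : 0 ≤ (1 - K) j j := h1.diag_nonneg
    simp only [Matrix.sub_apply, one_apply_eq] at a4 a5
    rw [sym h0.isHermitian i j] at a1
    constructor <;> nlinarith
  have hl : Continuous (lik X : Matrix (Fin N) (Fin N) ℝ → ℝ) := by
    unfold lik prob minor
    refine continuous_finsetProd _ (fun t _ => continuous_finsetSum _ (fun T _ => ?_))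
    exact continuous_const.mul (Continuous.matrix_det (by fun_prop))
  obtain ⟨K, hK, hm⟩ := hc.exists_isMaxOn ⟨0, PosSemidef.zero, by simpa using PosSemidef.one⟩
    hl.continuousOn
  exact ⟨K, hK, fun K' h => hm h⟩

lemma p013 (K : Matrix (Fin 4) (Fin 4) ℝ) :
    prob K {0, 1, 3} = (pad K {0, 1, 3}).det - K.det := by
  have : Finset.univ.filter (fun T => ({0, 1, 3} : Finset (Fin 4)) ⊆ T) =
      {{0, 1, 3}, {0, 1, 2, 3}} := by decide
  unfold prob minor
  rw [this, Finset.sum_pair (by decide), minor_eq, minor_eq,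
    show (({0, 1, 3} : Finset (Fin 4)) \ {0, 1, 3}).card = 0 by decide,
    show (({0, 1, 2, 3} : Finset (Fin 4)) \ {0, 1, 3}).card = 1 by decide]
  simp only [det4]; simp [pad]; ring

lemma p023 (K : Matrix (Fin 4) (Fin 4) ℝ) :
    prob K {0, 2, 3} = (pad K {0, 2, 3}).det - K.det := by
  have : Finset.univ.filter (fun T => ({0, 2, 3} : Finset (Fin 4)) ⊆ T) =
      {{0, 2, 3}, {0, 1, 2, 3}} := by decide
  unfold prob minor
  rw [this, Finset.sum_pair (by decide), minor_eq, minor_eq,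
    show (({0, 2, 3} : Finset (Fin 4)) \ {0, 2, 3}).card = 0 by decide,
    show (({0, 1, 2, 3} : Finset (Fin 4)) \ {0, 2, 3}).card = 1 by decide]
  simp only [det4]; simp [pad]; ring

lemma p123 (K : Matrix (Fin 4) (Fin 4) ℝ) :
    prob K {1, 2, 3} = (pad K {1, 2, 3}).det - K.det := by
  have : Finset.univ.filter (fun T => ({1, 2, 3} : Finset (Fin 4)) ⊆ T) =
      {{1, 2, 3}, {0, 1, 2, 3}} := by decide
  unfold prob minor
  rw [this, Finset.sum_pair (by decide), minor_eq, minor_eq,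
    show (({1, 2, 3} : Finset (Fin 4)) \ {1, 2, 3}).card = 0 by decide,
    show (({0, 1, 2, 3} : Finset (Fin 4)) \ {1, 2, 3}).card = 1 by decide]
  simp only [det4]; simp [pad]; ring

lemma p3 (K : Matrix (Fin 4) (Fin 4) ℝ) :
    prob K {3} = (pad K {3}).det - (pad K {0, 3}).det - (pad K {1, 3}).det - (pad K {2, 3}).det
      + (pad K {0, 1, 3}).det + (pad K {0, 2, 3}).det + (pad K {1, 2, 3}).det - K.det := by
  have : Finset.univ.filter (fun T => ({3} : Finset (Fin 4)) ⊆ T) =
      {{3}, {0, 3}, {1, 3}, {2, 3}, {0, 1, 3}, {0, 2, 3}, {1, 2, 3}, {0, 1, 2, 3}} := by decide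
  unfold prob minor
  rw [this, Finset.sum_insert (by decide), Finset.sum_insert (by decide),
    Finset.sum_insert (by decide), Finset.sum_insert (by decide), Finset.sum_insert (by decide),
    Finset.sum_insert (by decide), Finset.sum_pair (by decide)]
  simp only [minor_eq]
  rw [show (({3} : Finset (Fin 4)) \ {3}).card = 0 by decide,
    show (({0, 3} : Finset (Fin 4)) \ {3}).card = 1 by decide,
    show (({1, 3} : Finset (Fin 4)) \ {3}).card = 1 by decide,
    show (({2, 3} : Finset (Fin 4)) \ {3}).card = 1 by decide,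
    show (({0, 1, 3} : Finset (Fin 4)) \ {3}).card = 2 by decide,
    show (({0, 2, 3} : Finset (Fin 4)) \ {3}).card = 2 by decide,
    show (({1, 2, 3} : Finset (Fin 4)) \ {3}).card = 2 by decide,
    show (({0, 1, 2, 3} : Finset (Fin 4)) \ {3}).card = 3 by decide]
  have e : pad K {0, 1, 2, 3} = K := by
    ext i j; fin_cases i <;> fin_cases j <;> simp [pad]
  rw [e]; ring

lemma lik_eq (K : Matrix (Fin 4) (Fin 4) ℝ) :
    lik train K = prob K {3} ^ 3 * (prob K {0, 1, 3} * prob K {0, 2, 3} * prob K {1, 2, 3}) := by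
  unfold lik train
  simp [Fin.prod_univ_succ]; ring

lemma boundB {K : Matrix (Fin 4) (Fin 4) ℝ} (h : IsMarginal K) (hd : K.det = 0) :
    lik train K ≤ 1 / 110592 := by
  obtain ⟨h0, h1⟩ := h
  rw [lik_eq]
  by_cases hc : K 3 3 = 0
  · have z : ∀ i, K i 3 = 0 := by
      intro i
      have := minor2_nonneg h0 i 3
      rw [hc, sym h0.isHermitian i 3] at this
      nlinarith
    have : prob K {0, 1, 3} = 0 := by
      rw [p013, hd, det4]; simp [pad, z]
    rw [this]; norm_num
  have hc0 : 0 ≤ K 3 3 := h0.diag_nonneg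
  have hc1 : K 3 3 ≤ 1 := by
    have a4 : 0 ≤ (1 - K) 3 3 := h1.diag_nonneg
    simp only [Matrix.sub_apply, one_apply_eq] at a4; linarith
  have e0 : K.det = K 3 3 * (schur K).det := by
    rw [det4, det_fin_three]; simp [schur]; field_simp; ring
  have hd' : (schur K).det = 0 := by
    rw [hd] at e0; exact (mul_eq_zero.1 e0.symm).resolve_left hc
  have hb := boundA (schur_psd h0 hc) (schur_psd' h0 h1) hd'
  have e1 : prob K {3} = K 3 3 * (1 - schur K).det := by
    rw [p3]; simp only [det4, det_fin_three]; simp [schur, pad, Matrix.one_apply]; field_simp; ring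
  have e2 : prob K {0, 1, 3} = K 3 3 * (schur K 0 0 * schur K 1 1 - schur K 0 1 * schur K 1 0) := by
    rw [p013, hd, det4]; simp [schur, pad]; field_simp; ring
  have e3 : prob K {0, 2, 3} = K 3 3 * (schur K 0 0 * schur K 2 2 - schur K 0 2 * schur K 2 0) := by
    rw [p023, hd, det4]; simp [schur, pad]; field_simp; ring
  have e4 : prob K {1, 2, 3} = K 3 3 * (schur K 1 1 * schur K 2 2 - schur K 1 2 * schur K 2 1) := by
    rw [p123, hd, det4]; simp [schur, pad]; field_simp; ring
  rw [e1, e2, e3, e4]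
  have h6 : K 3 3 ^ 6 ≤ 1 := pow_le_one₀ hc0 hc1
  have h7 := mul_le_mul_of_nonneg_left hb (pow_nonneg hc0 6)
  calc _ = K 3 3 ^ 6 * ((1 - schur K).det ^ 3 *
        ((schur K 0 0 * schur K 1 1 - schur K 0 1 * schur K 1 0) *
        (schur K 0 0 * schur K 2 2 - schur K 0 2 * schur K 2 0) *
        (schur K 1 1 * schur K 2 2 - schur K 1 2 * schur K 2 1))) := by ring
    _ ≤ _ := h7
    _ ≤ _ := by linarith

noncomputable def K0 : Matrix (Fin 4) (Fin 4) ℝ := diagonal ![1/3, 1/3, 1/3, 1]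

lemma K0_marg : IsMarginal K0 := by
  constructor
  · unfold K0; rw [posSemidef_diagonal_iff]; intro i; fin_cases i <;> norm_num
  · unfold K0; rw [← diagonal_one, diagonal_sub, posSemidef_diagonal_iff]
    intro i; fin_cases i <;> norm_num

lemma K0_lik : lik train K0 = 4096 / 387420489 := by
  rw [lik_eq, p3, p013, p023, p123]
  simp only [det4]; simp [pad, K0, diagonal_apply]; norm_num

theorem result :
    (∃ X : Fin 6 → Finset (Fin 4), (∀ t, (X t).Nonempty ∧ (X t).card ≤ 3) ∧
      (∃ K, Optimal X K) ∧ ∀ K, Optimal X K → K.rank = 4) ∧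
    ¬ ∀ k : ℕ, 1 ≤ k → ∀ (N m : ℕ) (X : Fin m → Finset (Fin N)), (∀ t, (X t).card ≤ k) →
      ∀ K, Optimal X K → K.rank ≤ k := by
  have h1 : ∀ t, (train t).Nonempty ∧ (train t).card ≤ 3 := by decide
  have h2 : ∀ K, Optimal train K → K.rank = 4 := by
    intro K hK
    by_cases hd : K.det = 0
    · have a := boundB hK.1 hd
      have b := hK.2 K0 K0_marg
      rw [K0_lik] at b
      linarith
    · have := rank_of_isUnit K ((isUnit_iff_isUnit_det K).2 (Ne.isUnit hd))
      simpa using this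
  refine ⟨⟨train, h1, exists_opt _, h2⟩, fun h => ?_⟩
  obtain ⟨K, hK⟩ := exists_opt train
  have := h 3 (by norm_num) 4 6 train (fun t => (h1 t).2) K hK
  rw [h2 K hK] at this
  omega

end Pool.Agent.Results.MP_dbbe21_pr.Counter
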